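import Pool.Agent.R349.SNDefs

/-!
# MP_d3d931_al, Q2

There is a semigroup which is left nilpotent and right nilpotent (of class three in both cases), but
which is not supernilpotent.

The definitions (`Mat`, `gens`, `MM`, `TermCond`, `comm`, `Supernilpotent`, `leftS`, `rightS`) are
those of the starting file `Pool.Agent.R349.SNDefs`, with which the first question was answered:
* `MM α β` is the subsemigroup `M(α_1, …, α_m, β)` of matrices over `S`, with rows indexed by
  `Fin m → Bool` and two columns, generated by the matrices `gens α β`;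
* `comm α β` is the higher commutator `[α_1, …, α_m, β]`;
* `Supernilpotent S d` : the commutator of `d + 1` copies of the total congruence is trivial;
* `leftS S d = ⊥` : left `d`-nilpotence, `rightS S d = ⊥` : right `d`-nilpotence.

The example. The letters are `a, b, c, d, x, y_0, y_1, …`. The types of the letters are
`a, b : 0`, `x : 1`, `y_i : i + 2`, `c, d : ∞`, and `a` and `d` are marked. Two words are similar if
they have the same multiset of types, the same number of inversions of types and the same number of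
marked letters. (The classes of similar words form a semigroup which embeds in a nilpotent group of
class two.) The semigroup is the quotient of the free semigroup in which similar words are
identified, except that no word `a y_0 … y_(N-1) c` or `b y_0 … y_(N-1) d` is identified with
another word. This is a congruence, because a proper initial or final segment of such a word is
similar to itself only. Similar elements have the same products with all elements, and so the
semigroup is left and right nilpotent of class three, but the words `a z_0 … z_(N-1) c` and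
`b z_0 … z_(N-1) d` are equal in it for all `z_i ∈ {x, y_i}`, except if `z_i = y_i` for all `i`.
-/

set_option autoImplicit false

namespace Pool.Agent.Results.MP_d3d931_al.NilpotentNotSupernilpotent

open Pool.Agent.R349.SN

/-! ## Semigroups with an annihilated congruence whose quotient is nilpotent of class two -/

section general

variable {S A Z : Type*} [Semigroup S] [AddCommMonoid A] [IsCancelAdd A] [AddCommGroup Z]

/-- the data: `S → A` a homomorphism, `n : S → Z` quadratic over it, pairs with the same values have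
the same products -/
structure Dat (ab : S → A) (n : S → Z) (B : A → A → Z) : Prop where
  ab_mul : ∀ s t, ab (s * t) = ab s + ab t
  n_mul : ∀ s t, n (s * t) = n s + n t + B (ab s) (ab t)
  left : ∀ s t r, ab s = ab t → n s = n t → r * s = r * t
  right : ∀ s t r, ab s = ab t → n s = n t → s * r = t * r

variable {ab : S → A} {n : S → Z} {B : A → A → Z}

/-- equality of `ab` -/
def gam (h : Dat ab n B) : Con S where
  r s t := ab s = ab t
  iseqv := ⟨fun _ => rfl, fun h => h.symm, fun h h' => h.trans h'⟩
  mul' := by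
    intro a b c d hab hcd
    show ab (a * c) = ab (b * d)
    rw [h.ab_mul, h.ab_mul, hab, hcd]

/-- equality of `ab` and `n` -/
def the (h : Dat ab n B) : Con S where
  r s t := ab s = ab t ∧ n s = n t
  iseqv := ⟨fun _ => ⟨rfl, rfl⟩, fun h => ⟨h.1.symm, h.2.symm⟩,
    fun h h' => ⟨h.1.trans h'.1, h.2.trans h'.2⟩⟩
  mul' := by
    intro a b c d hab hcd
    show ab (a * c) = ab (b * d) ∧ n (a * c) = n (b * d)
    rw [h.ab_mul, h.ab_mul, h.n_mul, h.n_mul, hab.1, hcd.1, hab.2, hcd.2]
    exact ⟨rfl, rfl⟩

/-- the two rows -/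
abbrev r0 : Fin 1 → Bool := fun _ => false
abbrev r1 : Fin 1 → Bool := fun _ => true

theorem r0_ne : r0 ≠ (fun _ => true) := by
  intro h
  have := congrFun h 0
  exact Bool.false_ne_true this

theorem cen_gam (h : Dat ab n B) : Cen (fun _ : Fin 1 => (⊤ : Con S)) ⊤ (gam h) := by
  intro x hx hrow
  have key : ab (x r1 true) + ab (x r0 false) = ab (x r1 false) + ab (x r0 true) := by
    clear hrow
    replace hx : x ∈ MM (fun _ : Fin 1 => (⊤ : Con S)) ⊤ := hx
    induction hx using Subsemigroup.closure_induction with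
    | mem x hx =>
      rcases hx with ⟨i, a, b, -, rfl⟩ | ⟨a, b, -, rfl⟩
      · simp
      · simp [add_comm]
    | mul x y _ _ ihx ihy =>
      simp only [Pi.mul_apply, h.ab_mul]
      have := congrArg₂ (· + ·) ihx ihy
      calc _ = ab (x r1 true) + ab (x r0 false) + (ab (y r1 true) + ab (y r0 false)) := by abel
        _ = _ := this
        _ = _ := by abel
  have h0 : ab (x r0 false) = ab (x r0 true) := hrow r0 r0_ne
  show ab (x r1 false) = ab (x r1 true)
  rw [h0] at key
  exact (add_right_cancel key).symm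

omit [IsCancelAdd A] in
theorem cen_the_left (h : Dat ab n B) : Cen (fun _ : Fin 1 => (⊤ : Con S)) (gam h) (the h) := by
  intro x hx hrow
  have key : (∀ ε, ab (x ε true) = ab (x ε false)) ∧ ∃ D : Z, ∀ ε, n (x ε true) = n (x ε false) + D := by
    clear hrow
    replace hx : x ∈ MM (fun _ : Fin 1 => (⊤ : Con S)) (gam h) := hx
    induction hx using Subsemigroup.closure_induction with
    | mem x hx =>
      rcases hx with ⟨i, a, b, -, rfl⟩ | ⟨a, b, hab, rfl⟩
      · exact ⟨fun ε => rfl, 0, fun ε => (add_zero _).symm⟩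
      · have hab' : ab a = ab b := hab
        refine ⟨fun ε => ?_, n b - n a, fun ε => ?_⟩
        · simp [hab']
        · simp
    | mul x y _ _ ihx ihy =>
      obtain ⟨h1, D, h2⟩ := ihx
      obtain ⟨h3, D', h4⟩ := ihy
      refine ⟨fun ε => ?_, D + D', fun ε => ?_⟩
      · simp only [Pi.mul_apply, h.ab_mul, h1, h3]
      · simp only [Pi.mul_apply, h.n_mul, h1, h2, h3, h4]
        abel
  obtain ⟨h1, D, h2⟩ := key
  have h0 : ab (x r0 false) = ab (x r0 true) ∧ n (x r0 false) = n (x r0 true) := hrow r0 r0_ne
  show ab (x r1 false) = ab (x r1 true) ∧ n (x r1 false) = n (x r1 true)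
  refine ⟨(h1 _).symm, ?_⟩
  have h3 := h2 r0
  rw [← h0.2] at h3
  have h4 : D = 0 := by
    have := h3.symm
    exact add_eq_left.1 this
  rw [h2, h4, add_zero]

omit [IsCancelAdd A] in
theorem cen_the_right (h : Dat ab n B) : Cen (fun _ : Fin 1 => gam h) (⊤ : Con S) (the h) := by
  intro x hx hrow
  have key : (∀ j, ab (x r1 j) = ab (x r0 j)) ∧ ∃ D : Z, ∀ j, n (x r1 j) = n (x r0 j) + D := by
    clear hrow
    replace hx : x ∈ MM (fun _ : Fin 1 => gam h) (⊤ : Con S) := hx
    induction hx using Subsemigroup.closure_induction with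
    | mem x hx =>
      rcases hx with ⟨i, a, b, hab, rfl⟩ | ⟨a, b, -, rfl⟩
      · have hab' : ab a = ab b := hab
        refine ⟨fun j => ?_, n b - n a, fun j => ?_⟩
        · simp [hab']
        · simp
      · exact ⟨fun ε => rfl, 0, fun ε => (add_zero _).symm⟩
    | mul x y _ _ ihx ihy =>
      obtain ⟨h1, D, h2⟩ := ihx
      obtain ⟨h3, D', h4⟩ := ihy
      refine ⟨fun ε => ?_, D + D', fun ε => ?_⟩
      · simp only [Pi.mul_apply, h.ab_mul, h1, h3]
      · simp only [Pi.mul_apply, h.n_mul, h1, h2, h3, h4]
        abel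
  obtain ⟨h1, D, h2⟩ := key
  have h0 : ab (x r0 false) = ab (x r0 true) ∧ n (x r0 false) = n (x r0 true) := hrow r0 r0_ne
  show ab (x r1 false) = ab (x r1 true) ∧ n (x r1 false) = n (x r1 true)
  rw [h1, h1, h2, h2, h0.1, h0.2]
  exact ⟨rfl, rfl⟩

omit [IsCancelAdd A] in
theorem cen_bot_left (h : Dat ab n B) : Cen (fun _ : Fin 1 => (⊤ : Con S)) (the h) ⊥ := by
  intro x hx hrow
  have key : (∀ ε, ab (x ε false) = ab (x ε true) ∧ n (x ε false) = n (x ε true)) ∧
      ((∀ ε ε' j, x ε j = x ε' j) ∨ ∀ ε, x ε false = x ε true) := by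
    clear hrow
    replace hx : x ∈ MM (fun _ : Fin 1 => (⊤ : Con S)) (the h) := hx
    induction hx using Subsemigroup.closure_induction with
    | mem x hx =>
      rcases hx with ⟨i, a, b, -, rfl⟩ | ⟨a, b, hab, rfl⟩
      · exact ⟨fun ε => ⟨rfl, rfl⟩, Or.inr fun ε => rfl⟩
      · have hab' : ab a = ab b ∧ n a = n b := hab
        exact ⟨fun ε => hab', Or.inl fun ε ε' j => rfl⟩
    | mul x y _ _ ihx ihy =>
      obtain ⟨h1, -⟩ := ihx
      obtain ⟨h3, -⟩ := ihy
      refine ⟨fun ε => ?_, Or.inr fun ε => ?_⟩
      · show ab (x ε false * y ε false) = ab (x ε true * y ε true) ∧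
          n (x ε false * y ε false) = n (x ε true * y ε true)
        rw [h.ab_mul, h.ab_mul, h.n_mul, h.n_mul, (h1 ε).1, (h1 ε).2, (h3 ε).1, (h3 ε).2]
        exact ⟨rfl, rfl⟩
      · show x ε false * y ε false = x ε true * y ε true
        rw [h.right _ _ _ (h1 ε).1 (h1 ε).2, h.left _ _ _ (h3 ε).1 (h3 ε).2]
  have h0 : x r0 false = x r0 true := hrow r0 r0_ne
  show x r1 false = x r1 true
  rcases key.2 with h1 | h1
  · rw [h1 r1 r0, h1 r1 r0, h0]
  · exact h1 _

omit [IsCancelAdd A] in
theorem cen_bot_right (h : Dat ab n B) : Cen (fun _ : Fin 1 => the h) (⊤ : Con S) ⊥ := by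
  intro x hx hrow
  have key : (∀ j, ab (x r0 j) = ab (x r1 j) ∧ n (x r0 j) = n (x r1 j)) ∧
      ((∀ j, x r0 j = x r1 j) ∨ ∀ ε, x ε false = x ε true) := by
    clear hrow
    replace hx : x ∈ MM (fun _ : Fin 1 => the h) (⊤ : Con S) := hx
    induction hx using Subsemigroup.closure_induction with
    | mem x hx =>
      rcases hx with ⟨i, a, b, hab, rfl⟩ | ⟨a, b, -, rfl⟩
      · have hab' : ab a = ab b ∧ n a = n b := hab
        exact ⟨fun j => hab', Or.inr fun ε => rfl⟩
      · exact ⟨fun j => ⟨rfl, rfl⟩, Or.inl fun j => rfl⟩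
    | mul x y _ _ ihx ihy =>
      obtain ⟨h1, -⟩ := ihx
      obtain ⟨h3, -⟩ := ihy
      refine ⟨fun j => ?_, Or.inl fun j => ?_⟩
      · show ab (x r0 j * y r0 j) = ab (x r1 j * y r1 j) ∧
          n (x r0 j * y r0 j) = n (x r1 j * y r1 j)
        rw [h.ab_mul, h.ab_mul, h.n_mul, h.n_mul, (h1 j).1, (h1 j).2, (h3 j).1, (h3 j).2]
        exact ⟨rfl, rfl⟩
      · show x r0 j * y r0 j = x r1 j * y r1 j
        rw [h.right _ _ _ (h1 j).1 (h1 j).2, h.left _ _ _ (h3 j).1 (h3 j).2]
  have h0 : x r0 false = x r0 true := hrow r0 r0_ne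
  show x r1 false = x r1 true
  rcases key.2 with h1 | h1
  · rw [← h1, ← h1, h0]
  · exact h1 _

theorem leftS_three (h : Dat ab n B) : leftS S 3 = ⊥ := by
  have h1 : leftS S 1 ≤ gam h := leftS_step (le_refl _) (cen_gam h)
  have h2 : leftS S 2 ≤ the h := leftS_step h1 (cen_the_left h)
  exact le_bot_iff.1 (leftS_step h2 (cen_bot_left h))

theorem rightS_three (h : Dat ab n B) : rightS S 3 = ⊥ := by
  have h1 : rightS S 1 ≤ gam h := rightS_step (le_refl _) (cen_gam h)
  have h2 : rightS S 2 ≤ the h := rightS_step h1 (cen_the_right h)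
  exact le_bot_iff.1 (rightS_step h2 (cen_bot_right h))

end general

/-! ## The words -/

/-- the letters -/
inductive L
  | a | b | c | d | x
  | y (i : ℕ)

/-- the type of a letter -/
def ty : L → WithTop ℕ
  | .a => 0
  | .b => 0
  | .c => ⊤
  | .d => ⊤
  | .x => 1
  | .y i => ((i + 2 : ℕ) : WithTop ℕ)

/-- `1` for the marked letters `a` and `d` -/
def mk : L → ℕ
  | .a => 1
  | .d => 1
  | _ => 0

/-- the number of marked letters -/
def zeta (w : List L) : ℕ := (w.map mk).sum

/-- the number of pairs `(i, j)` of places of `l` and `l'` with `l i > l' j` -/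
def cross (l l' : List (WithTop ℕ)) : ℕ := (l.map fun t => l'.countP (· < t)).sum

/-- the number of inversions -/
def inv : List (WithTop ℕ) → ℕ
  | [] => 0
  | t :: l => l.countP (· < t) + inv l

theorem inv_append (l l' : List (WithTop ℕ)) : inv (l ++ l') = inv l + inv l' + cross l l' := by
  induction l with
  | nil => simp [inv, cross]
  | cons t l ih =>
    rw [List.cons_append, inv, ih, List.countP_append, inv, cross, cross, List.map_cons,
      List.sum_cons]
    ring

theorem cross_perm {l l' m m' : List (WithTop ℕ)} (h : l.Perm m) (h' : l'.Perm m') :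
    cross l l' = cross m m' := by
  unfold cross
  rw [(h.map _).sum_eq]
  congr 1
  apply List.map_congr_left
  intro t _
  exact h'.countP_eq _

theorem inv_eq_zero_iff (l : List (WithTop ℕ)) : inv l = 0 ↔ l.Pairwise (· ≤ ·) := by
  induction l with
  | nil => simp [inv]
  | cons t l ih =>
    rw [inv, Nat.add_eq_zero_iff, ih, List.pairwise_cons, List.countP_eq_zero]
    simp

/-- similar words -/
def Sim (u v : List L) : Prop :=
  (u.map ty).Perm (v.map ty) ∧ inv (u.map ty) = inv (v.map ty) ∧ zeta u = zeta v

theorem Sim.refl (u : List L) : Sim u u := ⟨List.Perm.refl _, rfl, rfl⟩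
theorem Sim.symm {u v : List L} (h : Sim u v) : Sim v u := ⟨h.1.symm, h.2.1.symm, h.2.2.symm⟩
theorem Sim.trans {u v w : List L} (h : Sim u v) (h' : Sim v w) : Sim u w :=
  ⟨h.1.trans h'.1, h.2.1.trans h'.2.1, h.2.2.trans h'.2.2⟩
theorem Sim.append {u v s t : List L} (h : Sim u v) (h' : Sim s t) : Sim (u ++ s) (v ++ t) := by
  refine ⟨?_, ?_, ?_⟩
  · rw [List.map_append, List.map_append]
    exact h.1.append h'.1
  · rw [List.map_append, List.map_append, inv_append, inv_append, h.2.1, h'.2.1,
      cross_perm h.1 h'.1]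
  · unfold zeta at *
    rw [List.map_append, List.map_append, List.sum_append, List.sum_append]
    exact congrArg₂ _ h.2.2 h'.2.2

/-- the word `y_0 … y_(N-1)` -/
def Y (N : ℕ) : List L := (List.range N).map L.y

/-- the special words -/
def W (N : ℕ) : List L := L.a :: (Y N ++ [L.c])
def W' (N : ℕ) : List L := L.b :: (Y N ++ [L.d])

def Spec : Set (List L) := {w | ∃ N, w = W N ∨ w = W' N}

/-- `1` for the letters whose type does not determine the letter -/
def am : L → ℕ
  | .a => 1
  | .b => 1
  | .c => 1
  | .d => 1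
  | _ => 0

def amb (w : List L) : ℕ := (w.map am).sum

theorem e0 (i : ℕ) : ((i + 2 : ℕ) : WithTop ℕ) ≠ 0 := by
  intro h
  have : (i + 2 : ℕ) = 0 := by exact_mod_cast h
  omega

theorem e1 (i : ℕ) : ((i + 2 : ℕ) : WithTop ℕ) ≠ 1 := by
  intro h
  have : (i + 2 : ℕ) = 1 := by exact_mod_cast h
  omega

theorem e2 (i : ℕ) : ((i + 2 : ℕ) : WithTop ℕ) ≠ ⊤ := WithTop.coe_ne_top

/-- the type determines the letter, if the letter is not one of `a, b, c, d`, or if one knows
whether it is marked -/
theorem ty_inj {l l' : L} (h : ty l = ty l') (h0 : am l = 0 ∨ mk l = mk l') : l = l' := by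
  cases l <;> cases l' <;> first
    | rfl
    | (exfalso; revert h0; simp [am, mk]; done)
    | (exfalso; revert h; simp [ty]; done)
    | (exfalso; exact e0 _ h.symm)
    | (exfalso; exact e1 _ h)
    | (exfalso; exact e1 _ h.symm)
    | (exfalso; exact e2 _ h.symm)
    | (congr 1; have : (_ + 2 : ℕ) = _ + 2 := WithTop.coe_injective h; omega)

theorem mk_eq_of_ty {l l' : L} (h : ty l = ty l') (h0 : am l = 0) : mk l = mk l' := by
  rw [ty_inj h (Or.inl h0)]

/-- a word in which at most one of the letters `a, b, c, d` occurs and at most once is determined by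
the types and the number of marked letters -/
theorem eq_of_types {u v : List L} (h : u.map ty = v.map ty) (hz : zeta u = zeta v)
    (ha : amb u ≤ 1) : u = v := by
  induction u generalizing v with
  | nil =>
    cases v with
    | nil => rfl
    | cons l v => simp at h
  | cons l u ih =>
    cases v with
    | nil => simp at h
    | cons l' v =>
      rw [List.map_cons, List.map_cons, List.cons.injEq] at h
      have hz' : mk l + zeta u = mk l' + zeta v := hz
      have ha' : am l + amb u ≤ 1 := ha
      by_cases h0 : am l = 0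
      · have h1 : l = l' := ty_inj h.1 (Or.inl h0)
        subst h1
        rw [ih h.2 (by omega) (by omega)]
      · -- the letters of `u` are determined
        have h2 : amb u = 0 := by omega
        have h3 : ∀ {u v : List L}, u.map ty = v.map ty → amb u = 0 → u = v := by
          intro u
          induction u with
          | nil =>
            intro v h _
            cases v with
            | nil => rfl
            | cons l v => simp at h
          | cons l u ih =>
            intro v h h0
            cases v with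
            | nil => simp at h
            | cons l' v =>
              rw [List.map_cons, List.map_cons, List.cons.injEq] at h
              have h0' : am l + amb u = 0 := h0
              rw [ty_inj h.1 (Or.inl (by omega)), ih h.2 (by omega)]
        have h4 := h3 h.2 h2
        subst h4
        rw [ty_inj h.1 (Or.inr (by omega))]

theorem amb_append (u v : List L) : amb (u ++ v) = amb u + amb v := by
  unfold amb
  rw [List.map_append, List.sum_append]

theorem amb_Y (N : ℕ) : amb (Y N) = 0 := by
  unfold amb Y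
  rw [List.map_map, List.sum_eq_zero_iff]
  intro n hn
  rw [List.mem_map] at hn
  obtain ⟨i, -, rfl⟩ := hn
  rfl

theorem sorted_Y (N : ℕ) : ((Y N).map ty).Pairwise (· ≤ ·) := by
  unfold Y
  rw [List.map_map, List.pairwise_map]
  refine List.Pairwise.imp ?_ List.pairwise_lt_range
  intro i j hij
  show ((i + 2 : ℕ) : WithTop ℕ) ≤ ((j + 2 : ℕ) : WithTop ℕ)
  have h : i + 2 ≤ j + 2 := by omega
  exact WithTop.coe_le_coe.2 h

theorem sorted_spec {w : List L} (h : w ∈ Spec) : (w.map ty).Pairwise (· ≤ ·) := by
  obtain ⟨N, rfl | rfl⟩ := h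
  · unfold W
    rw [List.map_cons, List.pairwise_cons, List.map_append, List.pairwise_append]
    refine ⟨fun t _ => bot_le, sorted_Y N, List.pairwise_singleton _ _, ?_⟩
    intro t _ t' ht'
    simp only [List.map_cons, List.map_nil, List.mem_singleton] at ht'
    rw [ht']
    exact le_top
  · unfold W'
    rw [List.map_cons, List.pairwise_cons, List.map_append, List.pairwise_append]
    refine ⟨fun t _ => bot_le, sorted_Y N, List.pairwise_singleton _ _, ?_⟩
    intro t _ t' ht'
    simp only [List.map_cons, List.map_nil, List.mem_singleton] at ht'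
    rw [ht']
    exact le_top

theorem amb_spec {w : List L} (h : w ∈ Spec) : amb w = 2 := by
  obtain ⟨N, rfl | rfl⟩ := h
  · show am L.a + amb (Y N ++ [L.c]) = 2
    rw [amb_append, amb_Y]
    rfl
  · show am L.b + amb (Y N ++ [L.d]) = 2
    rw [amb_append, amb_Y]
    rfl

/-- the first letter and the last letter of a special word are ambiguous -/
theorem amb_head {s u : List L} (hs : s ≠ []) (h : s ++ u ∈ Spec) : 1 ≤ amb s := by
  cases s with
  | nil => exact absurd rfl hs
  | cons l s =>
    show 1 ≤ am l + amb s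
    obtain ⟨N, h | h⟩ := h
    · rw [List.cons_append, W, List.cons.injEq] at h
      rw [h.1]
      exact Nat.le_add_right 1 _
    · rw [List.cons_append, W', List.cons.injEq] at h
      rw [h.1]
      exact Nat.le_add_right 1 _

theorem amb_last {s u : List L} (hs : s ≠ []) (h : u ++ s ∈ Spec) : 1 ≤ amb s := by
  have h1 : ∀ l : L, (u ++ s).getLast? = some l → s.getLast? = some l := by
    intro l hl
    rw [List.getLast?_append_of_ne_nil _ hs] at hl
    exact hl
  have h2 : ∀ l : L, s.getLast? = some l → am l ≤ amb s := by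
    intro l hl
    have h3 : l ∈ s := List.mem_of_getLast? hl
    exact List.single_le_sum (by simp) _ (List.mem_map_of_mem h3)
  obtain ⟨N, h | h⟩ := h
  · have h3 : (u ++ s).getLast? = some L.c := by
      rw [h, W, ← List.cons_append, List.getLast?_concat]
    exact h2 _ (h1 _ h3)
  · have h3 : (u ++ s).getLast? = some L.d := by
      rw [h, W', ← List.cons_append, List.getLast?_concat]
    exact h2 _ (h1 _ h3)

/-- **rigidity**: a word with sorted types with at most one ambiguous letter is similar to itself
only -/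
theorem rigid {u v : List L} (hu : (u.map ty).Pairwise (· ≤ ·)) (ha : amb u ≤ 1)
    (h : Sim u v) : u = v := by
  refine eq_of_types ?_ h.2.2 ha
  have h1 := (inv_eq_zero_iff _).2 hu
  rw [h.2.1] at h1
  have h2 := (inv_eq_zero_iff _).1 h1
  exact h.1.eq_of_pairwise (fun a b _ _ hab hba => le_antisymm hab hba) hu h2

theorem rigid_left {s u v : List L} (hs : s ≠ []) (h : u ++ s ∈ Spec) (huv : Sim u v) : u = v := by
  refine rigid ?_ ?_ huv
  · have := sorted_spec h
    rw [List.map_append, List.pairwise_append] at this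
    exact this.1
  · have h1 := amb_spec h
    have h2 := amb_last hs h
    rw [amb_append] at h1
    omega

theorem rigid_right {s u v : List L} (hs : s ≠ []) (h : s ++ u ∈ Spec) (huv : Sim u v) :
    u = v := by
  refine rigid ?_ ?_ huv
  · have := sorted_spec h
    rw [List.map_append, List.pairwise_append] at this
    exact this.2.1
  · have h1 := amb_spec h
    have h2 := amb_head hs h
    rw [amb_append] at h1
    omega

/-! ## The semigroup -/

/-- the free semigroup: nonempty words -/
def F : Type := {w : List L // w ≠ []}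

instance : Semigroup F where
  mul u v := ⟨u.1 ++ v.1, fun h => u.2 (List.append_eq_nil_iff.1 h).1⟩
  mul_assoc _ _ _ := Subtype.ext (List.append_assoc _ _ _)

theorem mul_val (u v : F) : (u * v).1 = u.1 ++ v.1 := rfl

/-- the relation -/
def Rel (u v : List L) : Prop := u = v ∨ (Sim u v ∧ u ∉ Spec ∧ v ∉ Spec)

theorem Rel.sim {u v : List L} (h : Rel u v) : Sim u v := by
  rcases h with rfl | h
  · exact Sim.refl _
  · exact h.1

theorem Rel.symm {u v : List L} (h : Rel u v) : Rel v u := by
  rcases h with rfl | h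
  · exact Or.inl rfl
  · exact Or.inr ⟨h.1.symm, h.2.2, h.2.1⟩

theorem Rel.trans {u v w : List L} (h : Rel u v) (h' : Rel v w) : Rel u w := by
  rcases h with rfl | h
  · exact h'
  · rcases h' with rfl | h'
    · exact Or.inr h
    · exact Or.inr ⟨h.1.trans h'.1, h.2.1, h'.2.2⟩

theorem rel_left {s u v : List L} (hs : s ≠ []) (h : Sim u v) : Rel (s ++ u) (s ++ v) := by
  by_cases h1 : s ++ u ∈ Spec
  · rw [rigid_right hs h1 h]
    exact Or.inl rfl
  · by_cases h2 : s ++ v ∈ Spec
    · rw [rigid_right hs h2 h.symm]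
      exact Or.inl rfl
    · exact Or.inr ⟨(Sim.refl s).append h, h1, h2⟩

theorem rel_right {s u v : List L} (hs : s ≠ []) (h : Sim u v) : Rel (u ++ s) (v ++ s) := by
  by_cases h1 : u ++ s ∈ Spec
  · rw [rigid_left hs h1 h]
    exact Or.inl rfl
  · by_cases h2 : v ++ s ∈ Spec
    · rw [rigid_left hs h2 h.symm]
      exact Or.inl rfl
    · exact Or.inr ⟨h.append (Sim.refl s), h1, h2⟩

/-- the congruence -/
def rho : Con F where
  r u v := Rel u.1 v.1
  iseqv := ⟨fun _ => Or.inl rfl, Rel.symm, Rel.trans⟩
  mul' := by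
    intro a b c d hab hcd
    exact (rel_right c.2 hab.sim).trans (rel_left b.2 hcd.sim)

/-- the semigroup of the example -/
abbrev S : Type := rho.Quotient

instance : Semigroup S := inferInstance

/-- the multiset of the types -/
def tys : S → Multiset (WithTop ℕ) := Quotient.lift (fun u : F => (↑(u.1.map ty) : Multiset _))
  (fun _ _ h => Multiset.coe_eq_coe.2 (Rel.sim h).1)

/-- the numbers of inversions and of marked letters -/
def num : S → ℤ × ℤ := Quotient.lift (fun u : F => ((inv (u.1.map ty) : ℤ), (zeta u.1 : ℤ)))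
  (fun u v h => by
    have h1 : Sim u.1 v.1 := Rel.sim h
    show ((inv (u.1.map ty) : ℤ), (zeta u.1 : ℤ)) = ((inv (v.1.map ty) : ℤ), (zeta v.1 : ℤ))
    rw [h1.2.1, h1.2.2])

/-- the number of inversions between two multisets of types -/
def crs (m m' : Multiset (WithTop ℕ)) : ℤ × ℤ :=
  (Quotient.liftOn₂ m m' (fun l l' => ((cross l l' : ℕ) : ℤ))
    (fun _ _ _ _ h h' => congrArg Nat.cast (cross_perm h h')), 0)

theorem dat : Dat tys num crs where
  ab_mul := by
    rintro ⟨u⟩ ⟨v⟩
    show ((↑((u.1 ++ v.1).map ty)) : Multiset (WithTop ℕ)) = ↑(u.1.map ty) + ↑(v.1.map ty)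
    rw [List.map_append, Multiset.coe_add]
  n_mul := by
    rintro ⟨u⟩ ⟨v⟩
    show ((inv ((u.1 ++ v.1).map ty) : ℤ), (zeta (u.1 ++ v.1) : ℤ)) =
      ((inv (u.1.map ty) : ℤ), (zeta u.1 : ℤ)) + ((inv (v.1.map ty) : ℤ), (zeta v.1 : ℤ)) +
        ((cross (u.1.map ty) (v.1.map ty) : ℤ), (0 : ℤ))
    rw [List.map_append, inv_append]
    unfold zeta
    rw [List.map_append, List.sum_append]
    ext <;> simp
  left := by
    rintro ⟨u⟩ ⟨v⟩ ⟨w⟩ h1 h2
    have h3 : (u.1.map ty).Perm (v.1.map ty) := Multiset.coe_eq_coe.1 h1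
    have h4 : (((inv (u.1.map ty) : ℕ) : ℤ), (zeta u.1 : ℤ)) =
      (((inv (v.1.map ty) : ℕ) : ℤ), (zeta v.1 : ℤ)) := h2
    rw [Prod.mk.injEq] at h4
    refine (Con.eq rho).2 ?_
    exact rel_left w.2 ⟨h3, by exact_mod_cast h4.1, by exact_mod_cast h4.2⟩
  right := by
    rintro ⟨u⟩ ⟨v⟩ ⟨w⟩ h1 h2
    have h3 : (u.1.map ty).Perm (v.1.map ty) := Multiset.coe_eq_coe.1 h1
    have h4 : (((inv (u.1.map ty) : ℕ) : ℤ), (zeta u.1 : ℤ)) =
      (((inv (v.1.map ty) : ℕ) : ℤ), (zeta v.1 : ℤ)) := h2
    rw [Prod.mk.injEq] at h4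
    refine (Con.eq rho).2 ?_
    exact rel_right w.2 ⟨h3, by exact_mod_cast h4.1, by exact_mod_cast h4.2⟩

/-! ## The matrices -/

/-- the class of a nonempty word -/
def cl (w : List L) (h : w ≠ []) : S := Con.toQuotient (c := rho) (⟨w, h⟩ : F)

theorem cl_eq {u v : List L} (hu : u ≠ []) (hv : v ≠ []) : cl u hu = cl v hv ↔ Rel u v :=
  Con.eq rho

theorem cl_congr {u v : List L} (hu : u ≠ []) (h : u = v) : cl u hu = cl v (h ▸ hu) := by
  subst h
  rfl

theorem cl_mul {u v : List L} (hu : u ≠ []) (hv : v ≠ []) :
    cl u hu * cl v hv = cl (u ++ v) (fun h => hu (List.append_eq_nil_iff.1 h).1) := rfl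

/-- the letter `y_i` if `ε_i = 1`, and `x` otherwise -/
def z {N : ℕ} (ε : Fin N → Bool) (i : ℕ) : L :=
  if h : i < N then (if ε ⟨i, h⟩ = true then L.y i else L.x) else L.x

/-- the word `z_0 … z_(k-1)` -/
def zs {N : ℕ} (ε : Fin N → Bool) (k : ℕ) : List L := (List.range k).map (z ε)

theorem mem_part {N : ℕ} (k : ℕ) (hk : k ≤ N) :
    (fun ε j => cl ((if j = true then L.b else L.a) :: zs ε k) (List.cons_ne_nil _ _) : Mat N S) ∈
      MM (fun _ : Fin N => (⊤ : Con S)) ⊤ := by
  induction k with
  | zero =>
    apply Subsemigroup.subset_closure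
    right
    refine ⟨cl [L.a] (List.cons_ne_nil _ _), cl [L.b] (List.cons_ne_nil _ _), trivial, ?_⟩
    funext ε j
    cases j <;> rfl
  | succ k ih =>
    have h1 := ih (by omega)
    have h2 : (fun ε _ => if ε ⟨k, by omega⟩ = true then cl [L.y k] (List.cons_ne_nil _ _)
        else cl [L.x] (List.cons_ne_nil _ _) : Mat N S) ∈
        MM (fun _ : Fin N => (⊤ : Con S)) ⊤ := by
      apply Subsemigroup.subset_closure
      left
      exact ⟨⟨k, by omega⟩, cl [L.x] (List.cons_ne_nil _ _), cl [L.y k] (List.cons_ne_nil _ _),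
        trivial, rfl⟩
    convert (MM (fun _ : Fin N => (⊤ : Con S)) ⊤).mul_mem h1 h2 using 1
    funext ε j
    have h3 : zs ε (k + 1) = zs ε k ++ [z ε k] := by
      unfold zs
      rw [List.range_succ, List.map_append, List.map_singleton]
    have h4 : z ε k = if ε ⟨k, by omega⟩ = true then L.y k else L.x := by
      unfold z
      rw [dif_pos (show k < N by omega)]
    show cl _ _ = cl _ _ * (if ε ⟨k, by omega⟩ = true then cl [L.y k] (List.cons_ne_nil _ _)
        else cl [L.x] (List.cons_ne_nil _ _))
    have h5 : (if ε ⟨k, by omega⟩ = true then cl [L.y k] (List.cons_ne_nil _ _)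
        else cl [L.x] (List.cons_ne_nil _ _)) = cl [z ε k] (List.cons_ne_nil _ _) := by
      rw [cl_congr _ (congrArg (fun l => [l]) h4)]
      split_ifs <;> rfl
    rw [h5, cl_mul]
    exact cl_congr _ (by rw [h3, List.cons_append])

theorem mem_all (N : ℕ) :
    (fun ε j => cl ((if j = true then L.b else L.a) :: (zs ε N ++ [if j = true then L.d else L.c]))
      (List.cons_ne_nil _ _) : Mat N S) ∈ MM (fun _ : Fin N => (⊤ : Con S)) ⊤ := by
  have h2 : (fun _ j => if j = true then cl [L.d] (List.cons_ne_nil _ _)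
        else cl [L.c] (List.cons_ne_nil _ _) : Mat N S) ∈
        MM (fun _ : Fin N => (⊤ : Con S)) ⊤ := by
    apply Subsemigroup.subset_closure
    right
    exact ⟨cl [L.c] (List.cons_ne_nil _ _), cl [L.d] (List.cons_ne_nil _ _), trivial, rfl⟩
  convert (MM (fun _ : Fin N => (⊤ : Con S)) ⊤).mul_mem (mem_part N le_rfl) h2 using 1
  funext ε j
  cases j <;> rfl

theorem not_TC (N : ℕ) : ¬ TC N S := by
  intro hTC
  have h := hTC _ (mem_all N) ?_
  · have h1 : Rel (L.a :: (zs (fun _ : Fin N => true) N ++ [L.c]))
        (L.b :: (zs (fun _ : Fin N => true) N ++ [L.d])) := (cl_eq _ _).1 h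
    have h2 : zs (fun _ : Fin N => true) N = Y N := by
      unfold zs Y
      apply List.map_congr_left
      intro i hi
      unfold z
      rw [dif_pos (List.mem_range.1 hi), if_pos rfl]
    rw [h2] at h1
    rcases h1 with h1 | h1
    · simp at h1
    · exact h1.2.1 ⟨N, Or.inl rfl⟩
  · intro ε hε
    refine (cl_eq _ _).2 (Or.inr ⟨⟨?_, ?_, ?_⟩, ?_, ?_⟩)
    · simp [ty]
    · simp [ty]
    · simp [zeta, mk, add_comm]
    all_goals
      obtain ⟨i, hi⟩ : ∃ i, ε i ≠ true := by
        by_contra hcon
        push Not at hcon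
        exact hε (funext hcon)
      have hx : L.x ∈ zs ε N := by
        unfold zs
        rw [List.mem_map]
        refine ⟨i, List.mem_range.2 i.2, ?_⟩
        unfold z
        rw [dif_pos i.2, if_neg hi]
      have hY : ∀ M, L.x ∉ W M ∧ L.x ∉ W' M := by
        intro M
        constructor <;> simp [W, W', Y]
      rintro ⟨M, hM | hM⟩
      · refine (hY M).1 ?_
        rw [← hM]
        exact List.mem_cons_of_mem _ (List.mem_append_left _ hx)
      · refine (hY M).2 ?_
        rw [← hM]
        exact List.mem_cons_of_mem _ (List.mem_append_left _ hx)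

/-- **Q2 of MP_d3d931_al**, answered in the negative: there is a semigroup `S` which is left
`3`-nilpotent and right `3`-nilpotent, but which is not `d`-supernilpotent for any `d`. -/
theorem result : ∃ (S : Type) (_ : Semigroup S),
    leftS S 3 = ⊥ ∧ rightS S 3 = ⊥ ∧ ∀ d, ¬ Supernilpotent S d :=
  ⟨S, inferInstance, leftS_three dat, rightS_three dat, fun d h =>
    not_TC d ((supernilpotent_iff d).1 h)⟩

end Pool.Agent.Results.MP_d3d931_al.NilpotentNotSupernilpotent
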